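import Mathlib

/-! Hip roofs on axis-parallel squares of the plane with the sup norm. -/

set_option autoImplicit false

namespace Pool.Agent.H762Z.Block

open MeasureTheory Set Metric

/-- The four affine functions vanishing on the four sides of the square. -/
def F (l w ε : ℝ) (z : ℝ × ℝ) (r : ℝ) (k : Fin 4) (y : ℝ × ℝ) : ℝ :=
  ![(1 - l) * w * (y.1 - z.1 + r), l * w * (z.1 + r - y.1), ε * (y.2 - z.2 + r),
    ε * (z.2 + r - y.2)] k

/-- The roof over the square. -/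
def roof (l w ε : ℝ) (z : ℝ × ℝ) (r : ℝ) (y : ℝ × ℝ) : ℝ :=
  max 0 (min (min (F l w ε z r 0 y) (F l w ε z r 1 y)) (min (F l w ε z r 2 y) (F l w ε z r 3 y)))

/-- The open face of the roof on which the `k`-th affine function is the smallest. -/
def Pc (l w ε : ℝ) (z : ℝ × ℝ) (r : ℝ) (k : Fin 4) : Set (ℝ × ℝ) :=
  {y | 0 < F l w ε z r k y ∧ ∀ j, j ≠ k → F l w ε z r k y < F l w ε z r j y}

variable {l w ε : ℝ}

lemma F0 (z : ℝ × ℝ) (r : ℝ) (y : ℝ × ℝ) : F l w ε z r 0 y = (1 - l) * w * (y.1 - z.1 + r) := rfl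
lemma F1 (z : ℝ × ℝ) (r : ℝ) (y : ℝ × ℝ) : F l w ε z r 1 y = l * w * (z.1 + r - y.1) := rfl
lemma F2 (z : ℝ × ℝ) (r : ℝ) (y : ℝ × ℝ) : F l w ε z r 2 y = ε * (y.2 - z.2 + r) := rfl
lemma F3 (z : ℝ × ℝ) (r : ℝ) (y : ℝ × ℝ) : F l w ε z r 3 y = ε * (z.2 + r - y.2) := rfl

lemma continuous_F (z : ℝ × ℝ) (r : ℝ) (k : Fin 4) : Continuous (F l w ε z r k) := by
  fin_cases k
  · show Continuous fun y : ℝ × ℝ => (1 - l) * w * (y.1 - z.1 + r); fun_prop
  · show Continuous fun y : ℝ × ℝ => l * w * (z.1 + r - y.1); fun_prop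
  · show Continuous fun y : ℝ × ℝ => ε * (y.2 - z.2 + r); fun_prop
  · show Continuous fun y : ℝ × ℝ => ε * (z.2 + r - y.2); fun_prop

lemma isOpen_Pc (z : ℝ × ℝ) (r : ℝ) (k : Fin 4) : IsOpen (Pc l w ε z r k) := by
  have h1 : IsOpen {y | 0 < F l w ε z r k y} := isOpen_lt continuous_const (continuous_F z r k)
  have h2 : IsOpen (⋂ j : Fin 4, {y | j ≠ k → F l w ε z r k y < F l w ε z r j y}) := by
    refine isOpen_iInter_of_finite fun j => ?_
    by_cases h : j = k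
    · simp [h]
    · simpa [h] using isOpen_lt (continuous_F z r k) (continuous_F z r j)
  convert h1.inter h2 using 1
  ext y; simp [Pc]

lemma pos_of_mem {z : ℝ × ℝ} {r : ℝ} {k : Fin 4} {y : ℝ × ℝ} (hy : y ∈ Pc l w ε z r k)
    (j : Fin 4) : 0 < F l w ε z r j y := by
  by_cases h : j = k
  · rw [h]; exact hy.1
  · exact hy.1.trans (hy.2 j h)

lemma le_of_mem {z : ℝ × ℝ} {r : ℝ} {k : Fin 4} {y : ℝ × ℝ} (hy : y ∈ Pc l w ε z r k)
    (j : Fin 4) : F l w ε z r k y ≤ F l w ε z r j y := by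
  by_cases h : j = k
  · rw [h]
  · exact (hy.2 j h).le

lemma mem_ball_iff (hl0 : 0 < l) (hl1 : l < 1) (hw : 0 < w) (hε : 0 < ε) (z : ℝ × ℝ) (r : ℝ)
    (y : ℝ × ℝ) : y ∈ closedBall z r ↔ ∀ j, 0 ≤ F l w ε z r j y := by
  have a0 : 0 < (1 - l) * w := mul_pos (by linarith) hw
  have a1 : 0 < l * w := mul_pos hl0 hw
  rw [mem_closedBall, Prod.dist_eq, max_le_iff, Real.dist_eq, Real.dist_eq, abs_le, abs_le]
  constructor
  · rintro ⟨⟨h1, h2⟩, h3, h4⟩ j
    fin_cases j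
    · exact mul_nonneg a0.le (by linarith)
    · exact mul_nonneg a1.le (by linarith)
    · exact mul_nonneg hε.le (by linarith)
    · exact mul_nonneg hε.le (by linarith)
  · intro h
    have h0 := nonneg_of_mul_nonneg_right (F0 (l := l) (w := w) (ε := ε) z r y ▸ h 0) a0
    have h1 := nonneg_of_mul_nonneg_right (F1 (l := l) (w := w) (ε := ε) z r y ▸ h 1) a1
    have h2 := nonneg_of_mul_nonneg_right (F2 (l := l) (w := w) (ε := ε) z r y ▸ h 2) hε
    have h3 := nonneg_of_mul_nonneg_right (F3 (l := l) (w := w) (ε := ε) z r y ▸ h 3) hε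
    refine ⟨⟨?_, ?_⟩, ?_, ?_⟩ <;> linarith

lemma Pc_subset (hl0 : 0 < l) (hl1 : l < 1) (hw : 0 < w) (hε : 0 < ε) (z : ℝ × ℝ) (r : ℝ)
    (k : Fin 4) : Pc l w ε z r k ⊆ closedBall z r := fun y hy =>
  (mem_ball_iff hl0 hl1 hw hε z r y).2 fun j => (pos_of_mem hy j).le

lemma Pc_unique {z : ℝ × ℝ} {r : ℝ} {k j : Fin 4} {y : ℝ × ℝ} (hk : y ∈ Pc l w ε z r k)
    (hj : y ∈ Pc l w ε z r j) : k = j := by
  by_contra h
  exact lt_asymm (hk.2 j (Ne.symm h)) (hj.2 k h)

lemma roof_nonneg (z : ℝ × ℝ) (r : ℝ) (y : ℝ × ℝ) : 0 ≤ roof l w ε z r y := le_max_left _ _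

lemma roof_eq {z : ℝ × ℝ} {r : ℝ} {k : Fin 4} {y : ℝ × ℝ} (hy : y ∈ Pc l w ε z r k) :
    roof l w ε z r y = F l w ε z r k y := by
  have h : min (min (F l w ε z r 0 y) (F l w ε z r 1 y)) (min (F l w ε z r 2 y) (F l w ε z r 3 y))
      = F l w ε z r k y := by
    apply le_antisymm
    · fin_cases k
      · exact (min_le_left _ _).trans (min_le_left _ _)
      · exact (min_le_left _ _).trans (min_le_right _ _)
      · exact (min_le_right _ _).trans (min_le_left _ _)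
      · exact (min_le_right _ _).trans (min_le_right _ _)
    · exact le_min (le_min (le_of_mem hy _) (le_of_mem hy _))
        (le_min (le_of_mem hy _) (le_of_mem hy _))
  rw [roof, h, max_eq_right hy.1.le]

lemma roof_eq_zero (hl0 : 0 < l) (hl1 : l < 1) (hw : 0 < w) (hε : 0 < ε) {z : ℝ × ℝ} {r : ℝ}
    {y : ℝ × ℝ} (hy : y ∉ closedBall z r) : roof l w ε z r y = 0 := by
  rw [mem_ball_iff hl0 hl1 hw hε] at hy
  push Not at hy
  obtain ⟨j, hj⟩ := hy
  refine max_eq_left (le_trans ?_ hj.le)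
  fin_cases j
  · exact (min_le_left _ _).trans (min_le_left _ _)
  · exact (min_le_left _ _).trans (min_le_right _ _)
  · exact (min_le_right _ _).trans (min_le_left _ _)
  · exact (min_le_right _ _).trans (min_le_right _ _)

lemma roof_le (hε : 0 < ε) (z : ℝ × ℝ) {r : ℝ} (hr : 0 ≤ r) (y : ℝ × ℝ) :
    roof l w ε z r y ≤ ε * r := by
  refine max_le (mul_nonneg hε.le hr) ((min_le_right _ _).trans ?_)
  have h2 := min_le_left (F l w ε z r 2 y) (F l w ε z r 3 y)
  have h3 := min_le_right (F l w ε z r 2 y) (F l w ε z r 3 y)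
  have : F l w ε z r 2 y + F l w ε z r 3 y = 2 * (ε * r) := by rw [F2, F3]; ring
  linarith

lemma line_null (a b c : ℝ) (h : a ≠ 0 ∨ b ≠ 0) :
    volume {y : ℝ × ℝ | a * y.1 + b * y.2 = c} = 0 := by
  let s : AffineSubspace ℝ (ℝ × ℝ) :=
    ⟨{y | a * y.1 + b * y.2 = c}, by
      intro t p1 p2 p3 h1 h2 h3
      simp only [mem_ofPred_eq, vsub_eq_sub, vadd_eq_add, Prod.fst_add, Prod.smul_fst,
        Prod.fst_sub, smul_eq_mul, Prod.snd_add, Prod.smul_snd, Prod.snd_sub] at *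
      linear_combination t * h1 - t * h2 + h3⟩
  have hs : s ≠ ⊤ := by
    intro htop
    have m : ∀ y : ℝ × ℝ, a * y.1 + b * y.2 = c := fun y => by
      have : y ∈ s := htop ▸ AffineSubspace.mem_top ℝ _ y
      exact this
    have m0 := m (0, 0)
    have m1 := m (1, 0)
    have m2 := m (0, 1)
    simp only at m0 m1 m2
    rcases h with h | h
    · exact h (by linarith)
    · exact h (by linarith)
  exact Measure.addHaar_affineSubspace volume s hs

lemma null_zero (hl0 : 0 < l) (hl1 : l < 1) (hw : 0 < w) (hε : 0 < ε) (z : ℝ × ℝ) (r : ℝ)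
    (k : Fin 4) : volume {y | F l w ε z r k y = 0} = 0 := by
  have a0 : 0 < (1 - l) * w := mul_pos (by linarith) hw
  have a1 : 0 < l * w := mul_pos hl0 hw
  fin_cases k
  · refine measure_mono_null ?_ (line_null ((1 - l) * w) 0 ((1 - l) * w * (z.1 - r)) (.inl a0.ne'))
    intro y hy
    have hy' : (1 - l) * w * (y.1 - z.1 + r) = 0 := hy
    show _ = _
    linear_combination hy'
  · refine measure_mono_null ?_ (line_null (l * w) 0 (l * w * (z.1 + r)) (.inl a1.ne'))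
    intro y hy
    have hy' : l * w * (z.1 + r - y.1) = 0 := hy
    show _ = _
    linear_combination -hy'
  · refine measure_mono_null ?_ (line_null 0 ε (ε * (z.2 - r)) (.inr hε.ne'))
    intro y hy
    have hy' : ε * (y.2 - z.2 + r) = 0 := hy
    show _ = _
    linear_combination hy'
  · refine measure_mono_null ?_ (line_null 0 ε (ε * (z.2 + r)) (.inr hε.ne'))
    intro y hy
    have hy' : ε * (z.2 + r - y.2) = 0 := hy
    show _ = _
    linear_combination -hy'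

/-- First component of the gradient. -/
def g1 (l w : ℝ) : Fin 4 → ℝ := ![(1 - l) * w, -(l * w), 0, 0]
/-- Second component of the gradient. -/
def g2 (ε : ℝ) : Fin 4 → ℝ := ![0, 0, ε, -ε]

lemma F_affine (z : ℝ × ℝ) (r : ℝ) (k : Fin 4) (y : ℝ × ℝ) :
    F l w ε z r k y = F l w ε z r k 0 + g1 l w k * y.1 + g2 ε k * y.2 := by
  fin_cases k <;> simp [F, g1, g2] <;> ring

lemma null_eq (hl0 : 0 < l) (hl1 : l < 1) (hw : 0 < w) (hε : 0 < ε) (z : ℝ × ℝ) (r : ℝ)
    (k j : Fin 4) (hkj : j ≠ k) : volume {y | F l w ε z r k y = F l w ε z r j y} = 0 := by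
  have a0 : 0 < (1 - l) * w := mul_pos (by linarith) hw
  have a1 : 0 < l * w := mul_pos hl0 hw
  have hne : g1 l w k - g1 l w j ≠ 0 ∨ g2 ε k - g2 ε j ≠ 0 := by
    by_contra hcon
    push Not at hcon
    obtain ⟨h1, h2⟩ := hcon
    fin_cases k <;> fin_cases j <;> simp [g1, g2] at h1 h2 hkj <;> nlinarith
  refine measure_mono_null ?_ (line_null _ _ (F l w ε z r j 0 - F l w ε z r k 0) hne)
  intro y hy
  have hy' : F l w ε z r k y = F l w ε z r j y := hy
  rw [F_affine z r k y, F_affine z r j y] at hy'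
  show _ = _
  linear_combination hy'

lemma null_rest (hl0 : 0 < l) (hl1 : l < 1) (hw : 0 < w) (hε : 0 < ε) (z : ℝ × ℝ) (r : ℝ) :
    volume (closedBall z r \ ⋃ k, Pc l w ε z r k) = 0 := by
  have hsub : closedBall z r \ ⋃ k, Pc l w ε z r k ⊆ (⋃ k, {y | F l w ε z r k y = 0}) ∪
      ⋃ k, ⋃ j, ⋃ (_ : j ≠ k), {y | F l w ε z r k y = F l w ε z r j y} := by
    rintro y ⟨hy, hn⟩
    rw [mem_ball_iff hl0 hl1 hw hε] at hy
    obtain ⟨k, hk⟩ := Finite.exists_min fun k => F l w ε z r k y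
    have hk' : y ∉ Pc l w ε z r k := fun h => hn (mem_iUnion.2 ⟨k, h⟩)
    by_cases h0 : F l w ε z r k y = 0
    · exact .inl (mem_iUnion.2 ⟨k, h0⟩)
    · right
      have hpos : 0 < F l w ε z r k y := lt_of_le_of_ne (hy k) (Ne.symm h0)
      have : ¬ ∀ j, j ≠ k → F l w ε z r k y < F l w ε z r j y := fun h => hk' ⟨hpos, h⟩
      push Not at this
      obtain ⟨j, hj, hle⟩ := this
      exact mem_iUnion.2 ⟨k, mem_iUnion.2 ⟨j, mem_iUnion.2 ⟨hj, le_antisymm (hk j) hle⟩⟩⟩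
  refine measure_mono_null hsub (measure_union_null ?_ ?_)
  · exact measure_iUnion_null fun k => null_zero hl0 hl1 hw hε z r k
  · exact measure_iUnion_null fun k => measure_iUnion_null fun j =>
      measure_iUnion_null fun h => null_eq hl0 hl1 hw hε z r k j h

lemma vol_box (a b c d : ℝ) :
    volume (Icc a b ×ˢ Icc c d) = ENNReal.ofReal (b - a) * ENNReal.ofReal (d - c) := by
  rw [Measure.volume_eq_prod, Measure.prod_prod, Real.volume_Icc, Real.volume_Icc]

lemma vol_ball (z : ℝ × ℝ) (r : ℝ) :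
    volume (closedBall z r) = ENNReal.ofReal (2 * r) * ENNReal.ofReal (2 * r) := by
  rw [← closedBall_prod_same, Measure.volume_eq_prod, Measure.prod_prod, Real.volume_closedBall,
    Real.volume_closedBall]

lemma vol_Pc0 (hl0 : 0 < l) (hl1 : l < 1) (hw : 0 < w) (hε : 0 < ε) (z : ℝ × ℝ) (r : ℝ) :
    volume (Pc l w ε z r 0) ≤ ENNReal.ofReal l * volume (closedBall z r) := by
  have hsub : Pc l w ε z r 0 ⊆ Icc (z.1 - r) (z.1 - r + l * (2 * r)) ×ˢ Icc (z.2 - r) (z.2 + r) := by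
    intro y hy
    have hb := Pc_subset hl0 hl1 hw hε z r 0 hy
    rw [mem_closedBall, Prod.dist_eq, max_le_iff, Real.dist_eq, Real.dist_eq, abs_le, abs_le] at hb
    have h01 := hy.2 1 (by decide)
    rw [F0, F1] at h01
    have : w * (y.1 - z.1 + r) < w * (l * (2 * r)) := by nlinarith
    have h2 := lt_of_mul_lt_mul_left this hw.le
    refine ⟨⟨?_, ?_⟩, ?_, ?_⟩ <;> linarith [hb.1.1, hb.1.2, hb.2.1, hb.2.2]
  refine (measure_mono hsub).trans (le_of_eq ?_)
  rw [vol_box, vol_ball, ← mul_assoc (ENNReal.ofReal l), ← ENNReal.ofReal_mul hl0.le]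
  congr 2 <;> ring

lemma vol_Pc1 (hl0 : 0 < l) (hl1 : l < 1) (hw : 0 < w) (hε : 0 < ε) (z : ℝ × ℝ) (r : ℝ) :
    volume (Pc l w ε z r 1) ≤ ENNReal.ofReal (1 - l) * volume (closedBall z r) := by
  have hsub : Pc l w ε z r 1 ⊆
      Icc (z.1 + r - (1 - l) * (2 * r)) (z.1 + r) ×ˢ Icc (z.2 - r) (z.2 + r) := by
    intro y hy
    have hb := Pc_subset hl0 hl1 hw hε z r 1 hy
    rw [mem_closedBall, Prod.dist_eq, max_le_iff, Real.dist_eq, Real.dist_eq, abs_le, abs_le] at hb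
    have h01 := hy.2 0 (by decide)
    rw [F0, F1] at h01
    have : w * (z.1 + r - y.1) < w * ((1 - l) * (2 * r)) := by nlinarith
    have h2 := lt_of_mul_lt_mul_left this hw.le
    refine ⟨⟨?_, ?_⟩, ?_, ?_⟩ <;> linarith [hb.1.1, hb.1.2, hb.2.1, hb.2.2]
  refine (measure_mono hsub).trans (le_of_eq ?_)
  rw [vol_box, vol_ball, ← mul_assoc (ENNReal.ofReal (1 - l)),
    ← ENNReal.ofReal_mul (show 0 ≤ 1 - l by linarith)]
  congr 2 <;> ring

lemma vol_Pc23 {δ : ℝ} (hl0 : 0 < l) (hl1 : l < 1) (hε : 0 < ε) (hδ : 0 < δ) (hw : w = ε * δ / 2)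
    (z : ℝ × ℝ) (r : ℝ) :
    volume (Pc l w ε z r 2 ∪ Pc l w ε z r 3) ≤ ENNReal.ofReal δ * volume (closedBall z r) := by
  have hw0 : 0 < w := by rw [hw]; positivity
  have key : ∀ k y, y ∈ Pc l w ε z r k → F l w ε z r k y ≤ ε * (δ * r) := by
    intro k y hy
    have hb := Pc_subset hl0 hl1 hw0 hε z r k hy
    rw [mem_closedBall, Prod.dist_eq, max_le_iff, Real.dist_eq, Real.dist_eq, abs_le, abs_le] at hb
    refine (le_of_mem hy 0).trans ?_
    rw [F0]
    have h1 : 0 ≤ y.1 - z.1 + r := by linarith [hb.1.1]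
    have h2 : y.1 - z.1 + r ≤ 2 * r := by linarith [hb.1.2]
    calc (1 - l) * w * (y.1 - z.1 + r) ≤ 1 * w * (2 * r) := by
          apply mul_le_mul _ h2 h1 (by positivity)
          exact mul_le_mul_of_nonneg_right (by linarith) hw0.le
      _ = ε * (δ * r) := by rw [hw]; ring
  have hsub2 : Pc l w ε z r 2 ⊆ Icc (z.1 - r) (z.1 + r) ×ˢ Icc (z.2 - r) (z.2 - r + δ * r) := by
    intro y hy
    have hb := Pc_subset hl0 hl1 hw0 hε z r 2 hy
    rw [mem_closedBall, Prod.dist_eq, max_le_iff, Real.dist_eq, Real.dist_eq, abs_le, abs_le] at hb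
    have h := key 2 y hy
    rw [F2] at h
    have h2 := le_of_mul_le_mul_left h hε
    refine ⟨⟨?_, ?_⟩, ?_, ?_⟩ <;> linarith [hb.1.1, hb.1.2, hb.2.1, hb.2.2]
  have hsub3 : Pc l w ε z r 3 ⊆ Icc (z.1 - r) (z.1 + r) ×ˢ Icc (z.2 + r - δ * r) (z.2 + r) := by
    intro y hy
    have hb := Pc_subset hl0 hl1 hw0 hε z r 3 hy
    rw [mem_closedBall, Prod.dist_eq, max_le_iff, Real.dist_eq, Real.dist_eq, abs_le, abs_le] at hb
    have h := key 3 y hy
    rw [F3] at h
    have h2 := le_of_mul_le_mul_left h hε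
    refine ⟨⟨?_, ?_⟩, ?_, ?_⟩ <;> linarith [hb.1.1, hb.1.2, hb.2.1, hb.2.2]
  refine (measure_union_le _ _).trans ((add_le_add (measure_mono hsub2) (measure_mono hsub3)).trans ?_)
  rw [vol_box, vol_box, vol_ball]
  have e1 : z.1 + r - (z.1 - r) = 2 * r := by ring
  have e2 : z.2 - r + δ * r - (z.2 - r) = δ * r := by ring
  have e3 : z.2 + r - (z.2 + r - δ * r) = δ * r := by ring
  rw [e1, e2, e3, ← mul_add, mul_left_comm]
  gcongr
  rcases le_total 0 r with hr | hr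
  · rw [← ENNReal.ofReal_add (by positivity) (by positivity), ← ENNReal.ofReal_mul hδ.le]
    exact le_of_eq (by congr 1; ring)
  · have : δ * r ≤ 0 := mul_nonpos_of_nonneg_of_nonpos hδ.le hr
    simp [ENNReal.ofReal_of_nonpos this]

lemma Pc0_nonempty (hl0 : 0 < l) (hl1 : l < 1) (hw : 0 < w) (hε : 0 < ε) (z : ℝ × ℝ) {r : ℝ}
    (hr : 0 < r) : (Pc l w ε z r 0).Nonempty := by
  obtain ⟨θ, h0, h1, h2⟩ : ∃ θ : ℝ, 0 < θ ∧ θ ≤ l ∧ w * θ ≤ ε :=
    ⟨min l (ε / w), lt_min hl0 (div_pos hε hw), min_le_left _ _, by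
      have := min_le_right l (ε / w)
      rw [le_div_iff₀ hw] at this; linarith⟩
  have hwr : 0 < w * r := mul_pos hw hr
  have hA : (1 - l) * w * (θ * r) < ε * r := by
    have : (1 - l) * (w * θ) < ε := by nlinarith [mul_pos hw h0]
    nlinarith
  refine ⟨(z.1 - r + θ * r, z.2), ?_, ?_⟩
  · rw [F0]
    have : (z.1 - r + θ * r - z.1 + r) = θ * r := by ring
    simp only [this]
    have : 0 < 1 - l := by linarith
    positivity
  · intro j hj
    have e : F l w ε z r 0 (z.1 - r + θ * r, z.2) = (1 - l) * w * (θ * r) := by rw [F0]; ring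
    rw [e]
    fin_cases j
    · exact absurd rfl hj
    · show _ < l * w * (z.1 + r - (z.1 - r + θ * r))
      have : (θ) * (w * r) < (2 * l) * (w * r) := mul_lt_mul_of_pos_right (by linarith) hwr
      nlinarith
    · show _ < ε * (z.2 - z.2 + r)
      simpa using hA
    · show _ < ε * (z.2 + r - z.2)
      simpa using hA

lemma Pc1_nonempty (hl0 : 0 < l) (hl1 : l < 1) (hw : 0 < w) (hε : 0 < ε) (z : ℝ × ℝ) {r : ℝ}
    (hr : 0 < r) : (Pc l w ε z r 1).Nonempty := by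
  obtain ⟨θ, h0, h1, h2⟩ : ∃ θ : ℝ, 0 < θ ∧ θ ≤ 1 - l ∧ w * θ ≤ ε :=
    ⟨min (1 - l) (ε / w), lt_min (by linarith) (div_pos hε hw), min_le_left _ _, by
      have := min_le_right (1 - l) (ε / w)
      rw [le_div_iff₀ hw] at this; linarith⟩
  have hwr : 0 < w * r := mul_pos hw hr
  have hA : l * w * (θ * r) < ε * r := by
    have : l * (w * θ) < ε := by nlinarith [mul_pos hw h0]
    nlinarith
  refine ⟨(z.1 + r - θ * r, z.2), ?_, ?_⟩
  · rw [F1]
    have : (z.1 + r - (z.1 + r - θ * r)) = θ * r := by ring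
    simp only [this]
    positivity
  · intro j hj
    have e : F l w ε z r 1 (z.1 + r - θ * r, z.2) = l * w * (θ * r) := by rw [F1]; ring
    rw [e]
    fin_cases j
    · show _ < (1 - l) * w * (z.1 + r - θ * r - z.1 + r)
      have : (θ) * (w * r) < (2 * (1 - l)) * (w * r) := mul_lt_mul_of_pos_right (by linarith) hwr
      nlinarith
    · exact absurd rfl hj
    · show _ < ε * (z.2 - z.2 + r)
      simpa using hA
    · show _ < ε * (z.2 + r - z.2)
      simpa using hA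

end Pool.Agent.H762Z.Block
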