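import Pool.Agent.H153Z.Stat.St
import Pool.Agent.H762Z.BlockModel

/-! The building block of the convex integration scheme: filling an open set by hip roofs. -/

set_option autoImplicit false

namespace Pool.Agent.H762Z.Block

open MeasureTheory Set Metric Pool.Agent.H153Z.Stat

/-- One-sided Lipschitz bound for `a + α φ`. -/
def Good (a : Pt → ℝ) (α K : ℝ) (φ : Pt → ℝ) : Prop :=
  ∀ x y, (a x + α * φ x) - (a y + α * φ y) ≤ K * dist x y

lemma good_sup {a : Pt → ℝ} {α K : ℝ} {σ : Pt → ℝ}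
    (h : ∀ x, ∃ φ, Good a α K φ ∧ φ x = σ x ∧ ∀ y, φ y ≤ σ y) : Good a α K σ := by
  intro x y
  rcases le_total 0 α with hα | hα
  · obtain ⟨φ, hφ, hx, hle⟩ := h x
    have := hφ x y
    have h2 := mul_le_mul_of_nonneg_left (hle y) hα
    rw [hx] at this; linarith
  · obtain ⟨φ, hφ, hy, hle⟩ := h y
    have := hφ x y
    have h2 := mul_le_mul_of_nonpos_left (hle x) hα
    rw [hy] at this; linarith

lemma good_inf {a : Pt → ℝ} {α K : ℝ} {σ : Pt → ℝ}
    (h : ∀ x, ∃ φ, Good a α K φ ∧ φ x = σ x ∧ ∀ y, σ y ≤ φ y) : Good a α K σ := by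
  intro x y
  rcases le_total 0 α with hα | hα
  · obtain ⟨φ, hφ, hy, hle⟩ := h y
    have := hφ x y
    have h2 := mul_le_mul_of_nonneg_left (hle x) hα
    rw [hy] at this; linarith
  · obtain ⟨φ, hφ, hx, hle⟩ := h x
    have := hφ x y
    have h2 := mul_le_mul_of_nonpos_left (hle y) hα
    rw [hx] at this; linarith

lemma good_max {a : Pt → ℝ} {α K : ℝ} {φ ψ : Pt → ℝ} (h1 : Good a α K φ) (h2 : Good a α K ψ) :
    Good a α K fun x => max (φ x) (ψ x) := by
  refine good_sup fun x => ?_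
  rcases le_total (φ x) (ψ x) with h | h
  · exact ⟨ψ, h2, (max_eq_right h).symm, fun y => le_max_right _ _⟩
  · exact ⟨φ, h1, (max_eq_left h).symm, fun y => le_max_left _ _⟩

lemma good_min {a : Pt → ℝ} {α K : ℝ} {φ ψ : Pt → ℝ} (h1 : Good a α K φ) (h2 : Good a α K ψ) :
    Good a α K fun x => min (φ x) (ψ x) := by
  refine good_inf fun x => ?_
  rcases le_total (φ x) (ψ x) with h | h
  · exact ⟨φ, h1, (min_eq_left h).symm, fun y => min_le_left _ _⟩
  · exact ⟨ψ, h2, (min_eq_right h).symm, fun y => min_le_right _ _⟩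

lemma good_affine (A s : Fin 2 → ℝ) (α C : ℝ) (hC : ∀ j, |A j + α * s j| ≤ C) (φ : Pt → ℝ)
    (hφ : ∀ x y, φ y = φ x + ∑ j, s j * (y j - x j)) :
    Good (fun x => ∑ j, A j * x j) α (2 * C) φ := by
  intro x y
  have hd : ∀ j, |x j - y j| ≤ dist x y := fun j => by
    have := EuclideanSpace.dist_eq x y
    simpa [Real.dist_eq] using PiLp.dist_apply_le x y j
  have hb : ∀ j, (A j + α * s j) * (x j - y j) ≤ C * dist x y := fun j => by
    refine (le_abs_self _).trans ?_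
    rw [abs_mul]
    exact mul_le_mul (hC j) (hd j) (abs_nonneg _) ((abs_nonneg _).trans (hC j))
  have h0 := hb 0
  have h1 := hb 1
  simp only [hφ y x, Fin.sum_univ_two]
  nlinarith

lemma exists_equiv (n : Fin 2 → ℝ) (hn : n ≠ 0) (w : ℝ) (hw : 0 < w) :
    ∃ L : Pt ≃L[ℝ] ℝ × ℝ, ∀ x, L x = ((n 0 * x 0 + n 1 * x 1) / w, -n 1 * x 0 + n 0 * x 1) := by
  let f : Pt →ₗ[ℝ] ℝ × ℝ :=
    { toFun := fun x => ((n 0 * x 0 + n 1 * x 1) / w, -n 1 * x 0 + n 0 * x 1)
      map_add' := fun x y => by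
        ext <;> simp <;> ring
      map_smul' := fun c x => by
        ext <;> simp <;> ring }
  have hN : 0 < n 0 ^ 2 + n 1 ^ 2 := by
    by_contra hcon
    apply hn
    have h0 : n 0 = 0 := by nlinarith [sq_nonneg (n 0), sq_nonneg (n 1)]
    have h1 : n 1 = 0 := by nlinarith [sq_nonneg (n 0), sq_nonneg (n 1)]
    funext j; fin_cases j <;> simp [h0, h1]
  have hinj : Function.Injective f := by
    rw [injective_iff_map_eq_zero]
    intro x hx
    have h1 : (n 0 * x 0 + n 1 * x 1) / w = 0 := congrArg Prod.fst hx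
    have h2 : -n 1 * x 0 + n 0 * x 1 = 0 := congrArg Prod.snd hx
    have h1' : n 0 * x 0 + n 1 * x 1 = 0 := by
      rcases div_eq_zero_iff.1 h1 with h | h
      · exact h
      · exact absurd h hw.ne'
    have e0 : (n 0 ^ 2 + n 1 ^ 2) * x 0 = 0 := by linear_combination n 0 * h1' - n 1 * h2
    have e1 : (n 0 ^ 2 + n 1 ^ 2) * x 1 = 0 := by linear_combination n 1 * h1' + n 0 * h2
    have x0 := (mul_eq_zero.1 e0).resolve_left hN.ne'
    have x1 := (mul_eq_zero.1 e1).resolve_left hN.ne'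
    ext j; fin_cases j <;> simp [x0, x1]
  exact ⟨(LinearMap.linearEquivOfInjective f hinj (by simp)).toContinuousLinearEquiv, fun x => rfl⟩

lemma exists_scale (L : Pt ≃L[ℝ] ℝ × ℝ) :
    ∃ κ : ENNReal, κ ≠ ⊤ ∧ ∀ B : Set (ℝ × ℝ), volume (L ⁻¹' B) = κ * volume B := by
  refine ⟨Measure.addHaarScalarFactor (Measure.map L volume) volume, ENNReal.coe_ne_top, fun B => ?_⟩
  have h := Measure.isAddLeftInvariant_eq_smul (Measure.map L (volume : Measure Pt))
    (volume : Measure (ℝ × ℝ))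
  have h2 : Measure.map L (volume : Measure Pt) B = volume (L ⁻¹' B) :=
    L.toHomeomorph.toMeasurableEquiv.map_apply B
  rw [← h2]
  conv_lhs => rw [h]
  rfl

theorem thm_block : Pool.Agent.H153Z.Stat.S_block := by
  classical
  intro O hO hOb l ε δ n hl0 hl1 hε hδ hn
  set w : ℝ := ε * δ / 2 with hwdef
  have hw : 0 < w := by positivity
  obtain ⟨L, hL⟩ := exists_equiv n hn w hw
  obtain ⟨κ, hκ, hvol⟩ := exists_scale L
  set O' : Set (ℝ × ℝ) := L.symm ⁻¹' O with hO'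
  have hO'o : IsOpen O' := hO.preimage L.symm.continuous
  have hpre : L ⁻¹' O' = O := by ext x; simp [hO']
  set M : ℝ := ‖(L.symm : (ℝ × ℝ) →L[ℝ] Pt)‖ + 1 with hM
  have hM0 : 0 < M := by positivity
  set R : ℝ := min (δ / ε) (δ / (2 * M)) with hR
  have hR0 : 0 < R := lt_min (by positivity) (by positivity)
  obtain ⟨t, r, htc, -, hr, hcov, hdisj⟩ := Besicovitch.exists_disjoint_closedBall_covering_ae
    (volume : Measure (ℝ × ℝ)) (fun y => {ρ | closedBall y ρ ⊆ O'}) O' (by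
      intro y hy η hη
      obtain ⟨ρ, hρ, hsub⟩ := Metric.isOpen_iff.1 hO'o y hy
      refine ⟨min ρ η / 2, (closedBall_subset_ball ?_).trans hsub, ?_, ?_⟩
      · linarith [min_le_left ρ η, lt_min hρ hη]
      · linarith [lt_min hρ hη]
      · linarith [min_le_right ρ η, lt_min hρ hη]) (fun _ => R) (fun _ _ => hR0)
  have hsubO : ∀ z ∈ t, closedBall z (r z) ⊆ O' := fun z hz => (hr z hz).1
  have hr0 : ∀ z ∈ t, 0 < r z := fun z hz => (hr z hz).2.1
  have hrR : ∀ z ∈ t, r z < R := fun z hz => (hr z hz).2.2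
  have huniq : ∀ z ∈ t, ∀ z' ∈ t, ∀ y, y ∈ closedBall z (r z) → y ∈ closedBall z' (r z') →
      z = z' := by
    intro z hz z' hz' y h1 h2
    by_contra hne
    exact Set.disjoint_left.1 (hdisj hz hz' hne) h1 h2
  have hPs : ∀ z k, Pc l w ε z (r z) k ⊆ closedBall z (r z) := fun z k =>
    Pc_subset hl0 hl1 hw hε z (r z) k
  -- the global roof
  let s : ℝ × ℝ → ℝ := fun y =>
    if h : ∃ z ∈ t, y ∈ closedBall z (r z) then roof l w ε h.choose (r h.choose) y else 0
  have hs_in : ∀ z ∈ t, ∀ y ∈ closedBall z (r z), s y = roof l w ε z (r z) y := by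
    intro z hz y hy
    have h : ∃ z ∈ t, y ∈ closedBall z (r z) := ⟨z, hz, hy⟩
    have e := huniq _ h.choose_spec.1 z hz y h.choose_spec.2 hy
    simp only [s, dif_pos h, e]
  have hs_out : ∀ y, (¬ ∃ z ∈ t, y ∈ closedBall z (r z)) → s y = 0 := fun y h => dif_neg h
  have hs0 : ∀ y, 0 ≤ s y := by
    intro y
    by_cases h : ∃ z ∈ t, y ∈ closedBall z (r z)
    · obtain ⟨z, hz, hy⟩ := h
      rw [hs_in z hz y hy]; exact roof_nonneg _ _ _
    · rw [hs_out y h]
  have hs_ge : ∀ z ∈ t, ∀ y, roof l w ε z (r z) y ≤ s y := by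
    intro z hz y
    by_cases hy : y ∈ closedBall z (r z)
    · rw [hs_in z hz y hy]
    · rw [roof_eq_zero hl0 hl1 hw hε hy]; exact hs0 y
  let U' : Set (ℝ × ℝ) := ⋃ z ∈ t, ⋃ k, Pc l w ε z (r z) k
  have hU' : ∀ y, y ∈ U' ↔ ∃ z ∈ t, ∃ k, y ∈ Pc l w ε z (r z) k := fun y => by simp [U']
  let c' : ℝ × ℝ → Fin 4 := fun y =>
    if h : ∃ k, ∃ z ∈ t, y ∈ Pc l w ε z (r z) k then h.choose else 0
  have hc' : ∀ z ∈ t, ∀ k, ∀ y ∈ Pc l w ε z (r z) k, c' y = k := by
    intro z hz k y hy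
    have h : ∃ k, ∃ z ∈ t, y ∈ Pc l w ε z (r z) k := ⟨k, z, hz, hy⟩
    obtain ⟨z', hz', hy'⟩ := h.choose_spec
    have e := huniq z' hz' z hz y (hPs _ _ hy') (hPs _ _ hy)
    rw [e] at hy'
    simp only [c', dif_pos h]
    exact Pc_unique hy' hy
  have hFaff : ∀ z ρ k (x y : Pt), F l w ε z ρ k (L y) =
      F l w ε z ρ k (L x) + ∑ j, slopes l ε n k j * (y j - x j) := by
    intro z ρ k x y
    rw [hL, hL]
    fin_cases k <;> simp [F, slopes, Fin.sum_univ_two] <;> field_simp <;> ring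
  have hsum : ∑' z : t, volume (closedBall (z : ℝ × ℝ) (r z)) ≤ volume O' := by
    rw [← measure_biUnion htc hdisj fun z _ => measurableSet_closedBall]
    exact measure_mono (iUnion₂_subset hsubO)
  have hbound : ∀ (S : Set (ℝ × ℝ)) (Q : ℝ × ℝ → Set (ℝ × ℝ)) (a : ENNReal), S ⊆ (⋃ z ∈ t, Q z) →
      (∀ z, volume (Q z) ≤ a * volume (closedBall z (r z))) → volume (L ⁻¹' S) ≤ a * volume O := by
    intro S Q a hS hQ
    rw [← hpre, hvol, hvol, mul_left_comm]
    gcongr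
    refine (measure_mono hS).trans ((measure_biUnion_le _ htc _).trans ?_)
    refine (ENNReal.tsum_le_tsum fun z : t => hQ z).trans ?_
    rw [ENNReal.tsum_mul_left]
    gcongr
  have hnull : volume (O' \ U') = 0 := by
    have hsub : O' \ U' ⊆ (O' \ ⋃ z ∈ t, closedBall z (r z)) ∪
        ⋃ z ∈ t, (closedBall z (r z) \ ⋃ k, Pc l w ε z (r z) k) := by
      rintro y ⟨hy, hn'⟩
      by_cases h : y ∈ ⋃ z ∈ t, closedBall z (r z)
      · right
        obtain ⟨z, hz, hyz⟩ := mem_iUnion₂.1 h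
        refine mem_iUnion₂.2 ⟨z, hz, hyz, fun hk => hn' (mem_iUnion₂.2 ⟨z, hz, hk⟩)⟩
      · exact .inl ⟨hy, h⟩
    refine measure_mono_null hsub (measure_union_null hcov ?_)
    exact (measure_biUnion_null_iff htc).2 fun z _ => null_rest hl0 hl1 hw hε z (r z)
  refine ⟨fun x => s (L x), L ⁻¹' U', fun x => c' (L x), ?_, ?_, ?_, ?_, ?_, ?_, ?_, ?_, ?_, ?_⟩
  · intro x hx
    obtain ⟨z, hz, k, hk⟩ := (hU' _).1 hx
    rw [← hpre]
    exact hsubO z hz (hPs z k hk)
  · rw [← hpre, ← preimage_sdiff, hvol, hnull, mul_zero]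
  · intro x hx
    refine hs_out _ ?_
    rintro ⟨z, hz, hy⟩
    apply hx
    rw [← hpre]
    exact hsubO z hz hy
  · intro x
    rw [abs_of_nonneg (hs0 _)]
    by_cases h : ∃ z ∈ t, L x ∈ closedBall z (r z)
    · obtain ⟨z, hz, hy⟩ := h
      rw [hs_in z hz _ hy]
      refine (roof_le hε z (hr0 z hz).le _).trans ?_
      have h1 : r z ≤ δ / ε := (hrR z hz).le.trans (min_le_left _ _)
      rw [le_div_iff₀ hε] at h1
      linarith
    · rw [hs_out _ h]; exact hδ.le
  · intro x hx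
    obtain ⟨z, hz, k, hk⟩ := (hU' _).1 hx
    refine ⟨L ⁻¹' Pc l w ε z (r z) k, (isOpen_Pc z _ k).preimage L.continuous, hk, ?_, ?_, ?_, ?_⟩
    · intro y hy
      exact (hU' _).2 ⟨z, hz, k, hy⟩
    · intro y hy
      have h1 : dist (L y) z ≤ r z := hPs z k hy
      have h2 : dist (L x) z ≤ r z := hPs z k hk
      have h3 : dist (L y) (L x) ≤ 2 * r z := by linarith [dist_triangle_right (L y) (L x) z]
      have h4 : dist y x ≤ ‖(L.symm : (ℝ × ℝ) →L[ℝ] Pt)‖ * dist (L y) (L x) := by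
        have := (L.symm : (ℝ × ℝ) →L[ℝ] Pt).dist_le_opNorm (L y) (L x)
        simpa using this
      have h5 : r z < δ / (2 * M) := (hrR z hz).trans_le (min_le_right _ _)
      rw [lt_div_iff₀ (by positivity)] at h5
      have h6 : ‖(L.symm : (ℝ × ℝ) →L[ℝ] Pt)‖ * dist (L y) (L x) ≤ M * (2 * r z) :=
        mul_le_mul (by linarith) h3 dist_nonneg hM0.le
      rw [mem_ball]
      linarith
    · rintro y ⟨hy, hyU⟩
      have hy' : L y ∈ closure (Pc l w ε z (r z) k) :=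
        L.continuous.closure_preimage_subset _ hy
      obtain ⟨z', hz', k', hk'⟩ := (hU' _).1 hyU
      obtain ⟨p, hp1, hp2⟩ := mem_closure_iff.1 hy' _ (isOpen_Pc z' (r z') k') hk'
      have e := huniq z' hz' z hz p (hPs _ _ hp1) (hPs _ _ hp2)
      subst e
      have e2 := Pc_unique hp1 hp2
      subst e2
      exact hk'
    · intro y hy
      have cx := hc' z hz k _ hk
      refine ⟨(hc' z hz k _ hy).trans cx.symm, ?_⟩
      show s (L y) = s (L x) + ∑ j, slopes l ε n (c' (L x)) j * (y j - x j)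
      rw [cx, hs_in z hz _ (hPs z k hy), hs_in z hz _ (hPs z k hk), roof_eq hy, roof_eq hk]
      exact hFaff _ _ _ _ _
  · refine hbound (U' ∩ {y | c' y = 0}) (fun z => Pc l w ε z (r z) 0) _ ?_
      fun z => vol_Pc0 hl0 hl1 hw hε z _
    rintro y ⟨hy, hc⟩
    obtain ⟨z, hz, k, hk⟩ := (hU' _).1 hy
    have e : k = 0 := (hc' z hz k y hk).symm.trans hc
    exact mem_iUnion₂.2 ⟨z, hz, e ▸ hk⟩
  · refine hbound (U' ∩ {y | c' y = 1}) (fun z => Pc l w ε z (r z) 1) _ ?_
      fun z => vol_Pc1 hl0 hl1 hw hε z _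
    rintro y ⟨hy, hc⟩
    obtain ⟨z, hz, k, hk⟩ := (hU' _).1 hy
    have e : k = 1 := (hc' z hz k y hk).symm.trans hc
    exact mem_iUnion₂.2 ⟨z, hz, e ▸ hk⟩
  · refine hbound (U' ∩ {y | c' y = 2 ∨ c' y = 3})
      (fun z => Pc l w ε z (r z) 2 ∪ Pc l w ε z (r z) 3) _ ?_
      fun z => vol_Pc23 hl0 hl1 hε hδ hwdef z _
    rintro y ⟨hy, hc⟩
    obtain ⟨z, hz, k, hk⟩ := (hU' _).1 hy
    rcases hc with hc | hc
    · have e : k = 2 := (hc' z hz k y hk).symm.trans hc
      exact mem_iUnion₂.2 ⟨z, hz, .inl (e ▸ hk)⟩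
    · have e : k = 3 := (hc' z hz k y hk).symm.trans hc
      exact mem_iUnion₂.2 ⟨z, hz, .inr (e ▸ hk)⟩
  · intro hne
    have hne' : O'.Nonempty := by
      obtain ⟨x, hx⟩ := hne
      exact ⟨L x, by simpa [hO'] using hx⟩
    obtain ⟨z, hz⟩ : t.Nonempty := by
      by_contra hemp
      rw [not_nonempty_iff_eq_empty] at hemp
      have := hO'o.measure_pos volume hne'
      simp [hemp] at hcov
      exact this.ne' hcov
    obtain ⟨p, hp⟩ := Pc0_nonempty hl0 hl1 hw hε z (hr0 z hz)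
    obtain ⟨q, hq⟩ := Pc1_nonempty hl0 hl1 hw hε z (hr0 z hz)
    refine ⟨⟨L.symm p, ?_, ?_⟩, ⟨L.symm q, ?_, ?_⟩⟩
    · show L (L.symm p) ∈ U'
      rw [L.apply_symm_apply]; exact (hU' _).2 ⟨z, hz, 0, hp⟩
    · show c' (L (L.symm p)) = 0
      rw [L.apply_symm_apply]; exact hc' z hz 0 p hp
    · show L (L.symm q) ∈ U'
      rw [L.apply_symm_apply]; exact (hU' _).2 ⟨z, hz, 1, hq⟩
    · show c' (L (L.symm q)) = 1
      rw [L.apply_symm_apply]; exact hc' z hz 1 q hq
  · intro A α C hA hS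
    have g0 : Good (fun x => ∑ j, A j * x j) α (2 * C) fun _ => 0 :=
      good_affine A 0 α C (by simpa using hA) _ (by simp)
    have gF : ∀ z ρ k, Good (fun x => ∑ j, A j * x j) α (2 * C) fun x => F l w ε z ρ k (L x) :=
      fun z ρ k => good_affine A (slopes l ε n k) α C (hS k) _ fun x y => hFaff z ρ k x y
    have gR : ∀ z ρ, Good (fun x => ∑ j, A j * x j) α (2 * C) fun x => roof l w ε z ρ (L x) :=
      fun z ρ => good_max g0 (good_min (good_min (gF z ρ 0) (gF z ρ 1))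
        (good_min (gF z ρ 2) (gF z ρ 3)))
    have gS : Good (fun x => ∑ j, A j * x j) α (2 * C) fun x => s (L x) := by
      refine good_sup fun x => ?_
      by_cases h : ∃ z ∈ t, L x ∈ closedBall z (r z)
      · obtain ⟨z, hz, hy⟩ := h
        exact ⟨_, gR z (r z), (hs_in z hz _ hy).symm, fun y => hs_ge z hz _⟩
      · exact ⟨_, g0, (hs_out _ h).symm, fun y => hs0 _⟩
    intro x y
    rw [abs_le]
    have h1 := gS x y
    have h2 := gS y x
    rw [dist_comm] at h2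
    constructor <;> linarith

end Pool.Agent.H762Z.Block
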